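import Pool.Agent.Helper1.RK.StA

/-!
Project RK, module CL1: no 2-forms.
-/

set_option autoImplicit false

namespace Pool.Agent.Helper8.RK

open Pool.Agent.Helper1.RK

section

variable {L : Type} [Field L]

/-- the order of `g` is at least `n` (or `g = 0`) -/
private def G (p : L) (n : ℤ) (g : RatFunc L) : Prop := g = 0 ∨ n ≤ ord p g

private theorem G_mul (h1 : StORD) {p : L} {n m : ℤ} {g h : RatFunc L} (hg : G p n g)
    (hh : G p m h) : G p (n + m) (g * h) := by
  by_cases g0 : g = 0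
  · left; rw [g0, zero_mul]
  by_cases h0 : h = 0
  · left; rw [h0, mul_zero]
  right
  rw [(h1 L p).2.1 g h g0 h0]
  exact add_le_add (hg.resolve_left g0) (hh.resolve_left h0)

private theorem G_neg (h1 : StORD) {p : L} {n : ℤ} {g : RatFunc L} (hg : G p n g) :
    G p n (-g) := by
  rcases hg with h | h
  · left; rw [h, neg_zero]
  · right
    rw [(h1 L p).2.2.2.1 g]
    exact h

private theorem G_add (h1 : StORD) {p : L} {n : ℤ} {g h : RatFunc L} (hg : G p n g)
    (hh : G p n h) : G p n (g + h) := by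
  by_cases g0 : g = 0
  · rw [g0, zero_add]; exact hh
  by_cases h0 : h = 0
  · rw [h0, add_zero]; exact hg
  by_cases s0 : g + h = 0
  · left; exact s0
  right
  exact (le_min (hg.resolve_left g0) (hh.resolve_left h0)).trans
    ((h1 L p).2.2.2.2.2.1 g h g0 h0 s0)

private theorem G_sub (h1 : StORD) {p : L} {n : ℤ} {g h : RatFunc L} (hg : G p n g)
    (hh : G p n h) : G p n (g - h) := by
  rw [sub_eq_add_neg]
  exact G_add h1 hg (G_neg h1 hh)

private theorem loc (h1 : StORD) (h2 : StREG) (h5 : StLD) [CharZero L] (p : L)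
    (d : Derivation ℤ L L) (Dc Dt : Derivation ℤ (RatFunc L) (RatFunc L)) (l m : L)
    (u v w : RatFunc L) (hl0 : l ≠ 0) (hl1 : l ≠ 1) (hm0 : m ≠ 0) (hm1 : m ≠ 1) (hdl : d l = 0)
    (hdm : d m = 0) (hc : Over d 0 Dc) (ht : Over 0 1 Dt) (hu : leg l u ≠ 0) (hv : leg m v ≠ 0)
    (hw : leg l u * leg m v = w * w) : Reg p ((Dc u * Dt v - Dc v * Dt u) / w) := by
  have hw0 : w ≠ 0 := by
    intro h
    rw [h, mul_zero] at hw
    exact (mul_ne_zero hu hv) hw
  have r0 : Reg p (0 : RatFunc L) := by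
    have := ((h2 L p).2.2.2.2.1 0).1
    rwa [map_zero] at this
  have r1 : Reg p (1 : RatFunc L) := by
    have := ((h2 L p).2.2.2.2.1 1).1
    rwa [map_one] at this
  obtain ⟨rC, eC⟩ := (h2 L p).2.2.2.2.1 (d p)
  have hs : Over d (RatFunc.C (d p)) (Dc + (RatFunc.C (d p)) • Dt) := by
    constructor
    · intro a
      rw [Derivation.add_apply, Derivation.smul_apply, hc.1, ht.1]
      simp
    · rw [Derivation.add_apply, Derivation.smul_apply, hc.2, ht.2]
      simp
  -- the local estimates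
  have tu := (h5 L p l 0 1 Dt u hl0 hl1 (by simp) ht r1 hu).1
  have tv := (h5 L p m 0 1 Dt v hm0 hm1 (by simp) ht r1 hv).1
  have cu := (h5 L p l d 0 Dc u hl0 hl1 hdl hc r0 hu).1
  have cv := (h5 L p m d 0 Dc v hm0 hm1 hdm hc r0 hv).1
  have su := (h5 L p l d _ _ u hl0 hl1 hdl hs rC hu).2.1 eC
  have sv := (h5 L p m d _ _ v hm0 hm1 hdm hs rC hv).2.1 eC
  have hij : ord p (leg l u) + ord p (leg m v) = ord p w + ord p w := by
    rw [← (h1 L p).2.1 _ _ hu hv, ← (h1 L p).2.1 _ _ hw0 hw0, hw]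
  have key : G p (ord p w) (Dc u * Dt v - Dc v * Dt u) := by
    rcases Int.even_or_odd (ord p (leg l u)) with he | ho
    · obtain ⟨a, ha⟩ := he
      obtain ⟨b, hb⟩ : ∃ b, ord p (leg m v) = b + b := ⟨ord p w - a, by omega⟩
      have e : ord p w = a + b := by omega
      have e' : ord p w = b + a := by omega
      have g1 : G p a (Dc u) := cu.imp id (fun h => by omega)
      have g2 : G p b (Dt v) := tv.imp id (fun h => by omega)
      have g3 : G p b (Dc v) := cv.imp id (fun h => by omega)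
      have g4 : G p a (Dt u) := tu.imp id (fun h => by omega)
      refine G_sub h1 ?_ ?_
      · rw [e]; exact G_mul h1 g1 g2
      · rw [e']; exact G_mul h1 g3 g4
    · have hov : Odd (ord p (leg m v)) := by
        obtain ⟨a, ha⟩ := ho
        exact ⟨ord p w - a - 1, by omega⟩
      obtain ⟨a, ha⟩ := ho
      obtain ⟨b, hb⟩ := hov
      have e : ord p w = (a + 1) + b := by omega
      have e' : ord p w = (b + 1) + a := by omega
      have g1 : G p (a + 1) ((Dc + (RatFunc.C (d p)) • Dt) u) :=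
        (su ⟨a, ha⟩).imp id (fun h => by omega)
      have g2 : G p b (Dt v) := tv.imp id (fun h => by omega)
      have g3 : G p (b + 1) ((Dc + (RatFunc.C (d p)) • Dt) v) :=
        (sv ⟨b, hb⟩).imp id (fun h => by omega)
      have g4 : G p a (Dt u) := tu.imp id (fun h => by omega)
      have eT : Dc u * Dt v - Dc v * Dt u =
          (Dc + (RatFunc.C (d p)) • Dt) u * Dt v - (Dc + (RatFunc.C (d p)) • Dt) v * Dt u := by
        rw [Derivation.add_apply, Derivation.smul_apply, Derivation.add_apply,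
          Derivation.smul_apply, smul_eq_mul, smul_eq_mul]
        ring
      rw [eT]
      refine G_sub h1 ?_ ?_
      · rw [e]; exact G_mul h1 g1 g2
      · rw [e']; exact G_mul h1 g3 g4
  rw [(h2 L p).2.1]
  rcases key with h | h
  · left
    rw [h, zero_div]
  · by_cases hT : Dc u * Dt v - Dc v * Dt u = 0
    · left
      rw [hT, zero_div]
    · right
      rw [div_eq_mul_inv, (h1 L p).2.1 _ _ hT (inv_ne_zero hw0), (h1 L p).2.2.1]
      omega

end

theorem pCL1 (h1 : StORD) (h2 : StREG) (h3 : StFIN) (h4 : StDER) (h5 : StLD) (h6 : StIOT)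
    (h7 : StTRN) : StCL1 := by
  intro L _ _ _ d Dc Dt l m u v hl0 hl1 hm0 hm1 hdl hdm hc ht hu hv hsq
  obtain ⟨w, hw⟩ := hsq
  have hw0 : w ≠ 0 := by
    intro h
    rw [h, mul_zero] at hw
    exact (mul_ne_zero hu hv) hw
  obtain ⟨⟨ι, hι⟩, hι2, -, -, -, hφ⟩ := h6 L
  obtain ⟨-, hP, -⟩ := hι2 ι hι
  -- the polynomial
  obtain ⟨P, hPe⟩ := (h3 L).1 _
    (fun p => loc h1 h2 h5 p d Dc Dt l m u v w hl0 hl1 hm0 hm1 hdl hdm hc ht hu hv hw)
  -- transport
  have hιC : ∀ a, ι (RatFunc.C a) = RatFunc.C a := (hφ ι.toAlgHom).1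
  have hleg : ∀ (l : L) (g : RatFunc L), leg l (ι g) = ι (leg l g) := by
    intro l g
    unfold leg
    rw [map_mul, map_mul, map_sub, map_sub, map_one, hιC]
  have hDc : ∀ g, Dc (ι g) = ι (Dc g) := by
    refine (h7 L d).1 ι.toAlgHom 0 0 Dc Dc hc hc ?_
    have e : (ι.toAlgHom) RatFunc.X = (RatFunc.X : RatFunc L)⁻¹ := hι
    rw [e, Derivation.leibniz_inv, hc.2, smul_zero, map_zero]
  have hDt : ∀ g, Dt (ι g) = -(RatFunc.X⁻¹ ^ 2 * ι (Dt g)) := by
    intro g
    obtain ⟨D', -, hD'⟩ := (h7 L 0).2.1 ι 1 Dt ht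
    have ho := (h7 L 0).2.2 ι hι 1 Dt D' ht hD'
    have h00 : Over (0 : Derivation ℤ L L) 0 (0 : Derivation ℤ (RatFunc L) (RatFunc L)) := by
      constructor
      · intro a
        simp
      · simp
    have e := (h4 L).2.2.1 0 _ D' 0 Dt ho h00 ht (ι g)
    rw [hD', map_one, Derivation.zero_apply, zero_add, mul_one] at e
    rw [e]
    have hX : (RatFunc.X : RatFunc L) ≠ 0 := RatFunc.X_ne_zero
    field_simp
  have hu' : leg l (ι u) ≠ 0 := by
    rw [hleg]
    exact (map_ne_zero ι).2 hu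
  have hv' : leg m (ι v) ≠ 0 := by
    rw [hleg]
    exact (map_ne_zero ι).2 hv
  have hw' : leg l (ι u) * leg m (ι v) = ι w * ι w := by
    rw [hleg, hleg, ← map_mul, ← map_mul, hw]
  have hr := loc h1 h2 h5 0 d Dc Dt l m (ι u) (ι v) (ι w) hl0 hl1 hm0 hm1 hdl hdm hc ht hu' hv' hw'
  have e : (Dc (ι u) * Dt (ι v) - Dc (ι v) * Dt (ι u)) / ι w =
      -(RatFunc.X⁻¹ ^ 2 * ι (algebraMap _ (RatFunc L) P)) := by
    rw [← hPe, hDc, hDc, hDt, hDt, map_div₀, map_sub, map_mul, map_mul]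
    ring
  rw [e] at hr
  have hr' := ((h2 L 0).2.2.2.2.2.2.2.1 _ hr).1
  rw [neg_neg] at hr'
  have hP0 := hP P hr'
  rw [hP0, map_zero, div_eq_zero_iff] at hPe
  exact sub_eq_zero.1 (hPe.resolve_right hw0)

end Pool.Agent.Helper8.RK
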