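import Pool.Agent.Helper1.RK.StE

/-!
# Project RK (MP_de00bc_nt), module UGN
Universal curves with a point.
-/

set_option autoImplicit false

namespace Pool.Agent.Helper8.RK

open Pool.Agent.Helper1.RK

/-- three different indices, the first one given -/
lemma three_idx (r : ℕ) (hr : 3 ≤ r) (i : Fin r) :
    ∃ e : Fin 3 → Fin r, e 0 = i ∧ ∀ k l, k ≠ l → e k ≠ e l := by
  have hr0 : 0 < r := by omega
  refine ⟨fun k => ⟨(i.val + k.val) % r, Nat.mod_lt _ hr0⟩, ?_, ?_⟩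
  · apply Fin.ext
    show (i.val + (0 : Fin 3).val) % r = i.val
    simp [Nat.mod_eq_of_lt i.isLt]
  · intro k l hkl h
    apply hkl
    have h1 : (i.val + k.val) % r = (i.val + l.val) % r := congrArg Fin.val h
    have h2 : k.val ≡ l.val [MOD r] := Nat.ModEq.add_left_cancel' i.val h1
    have h3 : k.val % r = l.val % r := h2
    rw [Nat.mod_eq_of_lt (lt_of_lt_of_le k.isLt hr), Nat.mod_eq_of_lt (lt_of_lt_of_le l.isLt hr)] at h3
    exact Fin.ext h3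

/-- the computation for one curve -/
lemma one_curve {K : Type} [Field K] (A R Y M U : K) (hM : M ≠ 0) (hY : Y ≠ 0)
    (h : M * (R ^ 3 + A * R + A) = Y ^ 2) :
    ∃ s : K, s ≠ 0 ∧
      (R ^ 3 + A * R + A) * ((U / M) ^ 3 + A * (U / M) + A) =
        (U ^ 3 + (A * M ^ 2) * U + ((Y * M) ^ 2 - (R * M) ^ 3 - (A * M ^ 2) * (R * M))) * s ^ 2 := by
  have hf : R ^ 3 + A * R + A ≠ 0 := by
    intro h0
    rw [h0, mul_zero] at h
    exact hY (pow_eq_zero_iff (two_ne_zero)|>.1 h.symm)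
  refine ⟨(R ^ 3 + A * R + A) / (M * Y), div_ne_zero hf (mul_ne_zero hM hY), ?_⟩
  have h1 : U ^ 3 + (A * M ^ 2) * U + ((Y * M) ^ 2 - (R * M) ^ 3 - (A * M ^ 2) * (R * M)) =
      M ^ 3 * ((U / M) ^ 3 + A * (U / M) + A) := by
    have h2 : (Y * M) ^ 2 = Y ^ 2 * M ^ 2 := by ring
    rw [h2, ← h]
    field_simp
    ring
  rw [h1]
  generalize (U / M) ^ 3 + A * (U / M) + A = g
  rw [div_pow, mul_pow, ← h]
  field_simp

/-- **UGN** -/
theorem pUGN (h1 : StVFR) (h2 : StUMN) (h3 : StISO) : StUGN := by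
  intro F _ _ r T hr u hu i
  obtain ⟨θ, hθc, hθt, hθ⟩ := h3 F r T
  choose μ hμ0 hμf hμa hμx hμy using hθ
  obtain ⟨K, _, _, _, X, pd, deg, lc, ψ, hψX, hψc, hV⟩ := h1 F ((Fin r × Fin 3) ⊕ T)
  have hψX' : ∀ z, ψ (rv F z) = X z := hψX
  have hψc' : ∀ c, ψ (rc ((Fin r × Fin 3) ⊕ T) c) = algebraMap F K c := hψc
  set Φ : RF F ((Fin r × Fin 3) ⊕ T) ≃+* K := θ.trans ψ with hΦ
  have hΦv : ∀ z, Φ z = ψ (θ z) := fun z => rfl
  have hΦc : ∀ c, Φ (rc _ c) = algebraMap F K c := by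
    intro c
    rw [hΦv, hθc, hψc']
  -- variables are not constants
  have hXc : ∀ z (c : F), X z ≠ algebraMap F K c := by
    intro z c h
    have h4 := hV.pd_self z
    rw [h, hV.pd_const] at h4
    exact zero_ne_one h4
  have hX0 : ∀ z, X z ≠ 0 := by
    intro z h
    exact hXc z 0 (by rw [h, map_zero])
  have hM0 : ∀ k, ψ (μ k) ≠ 0 := by
    intro k h
    exact hμ0 k ((map_eq_zero_iff ψ ψ.injective).1 h)
  have hMf : ∀ k, ψ (μ k) * (X (Sum.inl (k, 1)) ^ 3 + X (Sum.inl (k, 0)) * X (Sum.inl (k, 1)) +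
      X (Sum.inl (k, 0))) = X (Sum.inl (k, 2)) ^ 2 := by
    intro k
    have h4 := congrArg ψ (hμf k)
    simpa only [map_mul, map_add, map_pow, hψX'] using h4
  have hΦa : ∀ k, Φ (rv F (Sum.inl (k, 0))) = X (Sum.inl (k, 0)) * ψ (μ k) ^ 2 := by
    intro k
    rw [hΦv, hμa, map_mul, map_pow, hψX']
  have hΦx : ∀ k, Φ (rv F (Sum.inl (k, 1))) = X (Sum.inl (k, 1)) * ψ (μ k) := by
    intro k
    rw [hΦv, hμx, map_mul, hψX']
  have hΦy : ∀ k, Φ (rv F (Sum.inl (k, 2))) = X (Sum.inl (k, 2)) * ψ (μ k) := by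
    intro k
    rw [hΦv, hμy, map_mul, hψX']
  have hΦG : ∀ k, Φ (u k ^ 3 + rv F (Sum.inl (k, 0)) * u k + bu F T k) =
      Φ (u k) ^ 3 + (X (Sum.inl (k, 0)) * ψ (μ k) ^ 2) * Φ (u k) +
        ((X (Sum.inl (k, 2)) * ψ (μ k)) ^ 2 - (X (Sum.inl (k, 1)) * ψ (μ k)) ^ 3 -
          (X (Sum.inl (k, 0)) * ψ (μ k) ^ 2) * (X (Sum.inl (k, 1)) * ψ (μ k))) := by
    intro k
    rw [bu, map_add, map_add, map_sub, map_sub, map_pow, map_pow, map_pow, map_mul, map_mul,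
      hΦa, hΦx, hΦy]
  have hs : ∀ k, ∃ s : K, s ≠ 0 ∧
      (X (Sum.inl (k, 1)) ^ 3 + X (Sum.inl (k, 0)) * X (Sum.inl (k, 1)) + X (Sum.inl (k, 0))) *
        ((Φ (u k) / ψ (μ k)) ^ 3 + X (Sum.inl (k, 0)) * (Φ (u k) / ψ (μ k)) + X (Sum.inl (k, 0))) =
      Φ (u k ^ 3 + rv F (Sum.inl (k, 0)) * u k + bu F T k) * s ^ 2 := by
    intro k
    rw [hΦG k]
    exact one_curve _ _ _ _ _ (hM0 k) (hX0 _) (hMf k)
  choose s hs0 hs1 using hs
  obtain ⟨e, he0, hei⟩ := three_idx r hr i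
  have hG0 : ∀ k, Φ (u k ^ 3 + rv F (Sum.inl (k, 0)) * u k + bu F T k) ≠ 0 := by
    intro k h
    have h4 : u k ^ 3 + rv F (Sum.inl (k, 0)) * u k + bu F T k = 0 :=
      (map_eq_zero_iff Φ Φ.injective).1 h
    obtain ⟨e', he0', hei'⟩ := three_idx r hr k
    have h5 := (hu (e' 0) (e' 1) (hei' 0 1 (by decide))).1
    rw [he0', h4, zero_mul] at h5
    exact h5 rfl
  have hg0 : ∀ k, (Φ (u k) / ψ (μ k)) ^ 3 + X (Sum.inl (k, 0)) * (Φ (u k) / ψ (μ k)) +
      X (Sum.inl (k, 0)) ≠ 0 := by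
    intro k h
    have h4 := hs1 k
    rw [h, mul_zero] at h4
    exact mul_ne_zero (hG0 k) (pow_ne_zero 2 (hs0 k)) h4.symm
  have hset : Setup F K ((Fin r × Fin 3) ⊕ T) X pd
      (fun k => {(Sum.inl (e k, 0) : (Fin r × Fin 3) ⊕ T)}) (fun k => Sum.inl (e k, 1))
      (fun k => X (Sum.inl (e k, 0))) (fun k => X (Sum.inl (e k, 0)))
      (fun k => Φ (u (e k)) / ψ (μ (e k))) := by
    refine ⟨?_, ?_, ?_, ?_, ?_, ?_, ?_, ?_⟩
    · intro k l hkl z hz hz'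
      rw [Finset.mem_singleton] at hz hz'
      rw [hz] at hz'
      have h4 := Sum.inl.inj hz'
      exact hei k l hkl (congrArg Prod.fst h4)
    · intro k l h
      rw [Finset.mem_singleton] at h
      have h4 : (1 : Fin 3) = 0 := congrArg Prod.snd (Sum.inl.inj h)
      exact absurd h4 (by decide)
    · intro k l hkl h
      have h4 := Sum.inl.inj h
      exact hei k l hkl (congrArg Prod.fst h4)
    · intro k z hz
      rw [Finset.mem_singleton] at hz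
      exact hV.pd_ne _ _ hz
    · intro k z hz
      rw [Finset.mem_singleton] at hz
      exact hV.pd_ne _ _ hz
    · intro k h
      have h4 : X (Sum.inl (e k, 0)) ^ 2 * (4 * X (Sum.inl (e k, 0)) + 27) = 0 := by
        rw [← h]; ring
      rcases mul_eq_zero.1 h4 with h5 | h5
      · exact hX0 _ ((pow_eq_zero_iff two_ne_zero).1 h5)
      · have h7 : (4 : K) ≠ 0 := by norm_num
        apply hXc (Sum.inl (e k, 0)) (-27 / 4 : F)
        rw [map_div₀, map_neg, map_ofNat, map_ofNat, eq_div_iff h7]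
        linear_combination h5
    · intro k
      exact hg0 (e k)
    · intro k l hkl
      obtain ⟨q, hq⟩ := (hu (e k) (e l) (hei k l hkl)).2
      refine ⟨Φ q * (s (e k) * s (e l)), ?_⟩
      show (X (Sum.inl (e k, 1)) ^ 3 + X (Sum.inl (e k, 0)) * X (Sum.inl (e k, 1)) +
          X (Sum.inl (e k, 0))) *
          ((Φ (u (e k)) / ψ (μ (e k))) ^ 3 + X (Sum.inl (e k, 0)) * (Φ (u (e k)) / ψ (μ (e k))) +
            X (Sum.inl (e k, 0))) *
        ((X (Sum.inl (e l, 1)) ^ 3 + X (Sum.inl (e l, 0)) * X (Sum.inl (e l, 1)) +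
          X (Sum.inl (e l, 0))) *
          ((Φ (u (e l)) / ψ (μ (e l))) ^ 3 + X (Sum.inl (e l, 0)) * (Φ (u (e l)) / ψ (μ (e l))) +
            X (Sum.inl (e l, 0)))) = _
      rw [hs1, hs1]
      have h4 := congrArg Φ hq
      rw [map_mul, map_mul] at h4
      linear_combination (s (e k) ^ 2 * s (e l) ^ 2) * h4
  obtain ⟨c, hc0, q, hq⟩ := h2 F K _ X pd deg lc _ _ _ _ _ hV hset 0
  refine ⟨c, hc0, Φ.symm (q / s (e 0)), ?_⟩
  apply Φ.injective
  rw [map_mul, hΦc, map_mul, RingEquiv.apply_symm_apply]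
  have h4 : algebraMap F K c * (Φ (u (e 0) ^ 3 + rv F (Sum.inl (e 0, 0)) * u (e 0) + bu F T (e 0)) *
      s (e 0) ^ 2) = q * q := by
    rw [← hs1]
    exact hq
  rw [he0] at h4 ⊢
  have h5 := hs0 i
  rw [div_mul_div_comm, eq_div_iff (mul_ne_zero h5 h5)]
  linear_combination h4

end Pool.Agent.Helper8.RK
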