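import Pool.Agent.Helper43.RK.St

set_option autoImplicit false

/-! Project RK, module SL2: matrices of determinant one over a finite commutative ring. -/

namespace Pool.Agent.Helper8.RK

open Pool.Agent.Helper43.RK

lemma exists_idem {k : Type} [CommRing k] [Finite k] (p : k) : ∃ N : ℕ, 1 ≤ N ∧ p ^ N * p ^ N = p ^ N := by
  obtain ⟨i, j, hij, h⟩ := Finite.exists_ne_map_eq_of_infinite (fun n : ℕ => p ^ n)
  have h' : p ^ i = p ^ j := h
  wlog hlt : i < j generalizing i j
  · exact this j i hij.symm h'.symm h'.symm (by omega)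
  obtain ⟨d, hd⟩ := Nat.exists_eq_add_of_lt hlt
  have key : ∀ m, i ≤ m → p ^ (m + (d + 1)) = p ^ m := by
    intro m hm
    obtain ⟨e, rfl⟩ := Nat.exists_eq_add_of_le hm
    calc p ^ (i + e + (d + 1)) = p ^ (i + d + 1) * p ^ e := by rw [← pow_add]; congr 1; omega
      _ = p ^ i * p ^ e := by rw [← hd, h']
      _ = p ^ (i + e) := by rw [← pow_add]
  have key2 : ∀ t m, i ≤ m → p ^ (m + (d + 1) * t) = p ^ m := by
    intro t
    induction t with
    | zero => intro m _; simp
    | succ t ih =>
      intro m hm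
      have e : m + (d + 1) * (t + 1) = (m + (d + 1) * t) + (d + 1) := by ring
      rw [e, key _ (by omega), ih m hm]
  refine ⟨(d + 1) * (i + 1), Nat.mul_pos (by omega) (by omega), ?_⟩
  rw [← pow_add]
  apply key2
  nlinarith

theorem hSL2 : StSL2 := by
  intro k _ _ p q r s hdet
  obtain ⟨N, hN, hf⟩ := exists_idem p
  have hx : IsUnit (p + (1 - p ^ N) * r) := by
    by_contra hnu
    obtain ⟨m, hm, hxm⟩ := exists_max_ideal_of_mem_nonunits (mem_nonunits_iff.2 hnu)
    have hmp : m.IsPrime := hm.isPrime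
    by_cases hp : p ∈ m
    · have h1 : p ^ N ∈ m := m.pow_mem_of_mem hp N (by omega)
      have h2 : (1 - p ^ N) * r ∈ m := by
        have := m.sub_mem hxm hp
        rwa [add_sub_cancel_left] at this
      have h3 : (1 - p ^ N) ∉ m := by
        intro h
        apply hmp.ne_top
        rw [Ideal.eq_top_iff_one]
        have := m.add_mem h h1
        rwa [sub_add_cancel] at this
      have hr : r ∈ m := (hmp.mem_or_mem h2).resolve_left h3
      apply hmp.ne_top
      rw [Ideal.eq_top_iff_one, ← hdet]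
      exact m.sub_mem (m.mul_mem_right _ hp) (m.mul_mem_left _ hr)
    · have h1 : p ^ N ∉ m := fun h => hp (hmp.mem_of_pow_mem N h)
      have h2 : p ^ N * (1 - p ^ N) ∈ m := by
        have : p ^ N * (1 - p ^ N) = 0 := by
          rw [mul_sub, mul_one, hf, sub_self]
        rw [this]
        exact m.zero_mem
      have h3 : (1 - p ^ N) ∈ m := (hmp.mem_or_mem h2).resolve_left h1
      apply hp
      have := m.sub_mem hxm (m.mul_mem_right r h3)
      rwa [add_sub_cancel_right] at this
  obtain ⟨u, hu⟩ := hx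
  have hui : (u : k) * ((u⁻¹ : kˣ) : k) = 1 := Units.mul_inv u
  refine ⟨-(1 - p ^ N), r * ((u⁻¹ : kˣ) : k), (u : k) * (q + (1 - p ^ N) * s), u, ?_, ?_, ?_, ?_⟩
  · rw [hu] at hui ⊢
    linear_combination (-(1 - p ^ N) * r) * (-hui)
  · rw [hu] at hui ⊢
    generalize ((u⁻¹ : kˣ) : k) = v at hui ⊢
    generalize p ^ N = f at hui ⊢
    linear_combination (-q + (1 - f) * r * (q + (1 - f) * s) * v) * hui - (1 - f) * v * hdet
  · rw [mul_assoc, Units.inv_mul, mul_one]
  · rw [hu] at hui ⊢
    generalize ((u⁻¹ : kˣ) : k) = v at hui ⊢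
    generalize p ^ N = f at hui ⊢
    linear_combination (-s - r * (q + (1 - f) * s) * v) * hui + v * hdet

end Pool.Agent.Helper8.RK
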