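import Pool.Agent.Helper43.RK.StI

/-! # Project RK, module IT3: the third triangle -/

set_option autoImplicit false

namespace Pool.Agent.Helper8.RK

open Pool.Agent.Helper43.RK

variable {Λ : Type} [CommRing Λ] {G : Type} [Group G] {k : ℤ}

theorem sig (P : PP Λ G k) (z2 : ∀ e : ℤ, P.Z ^ e * P.a = P.a * P.Z ^ (k * e)) (v l r : Λ)
    (e1 : ℤ) (h : P.Tri v l r (k * e1)) :
    P.a * P.p r * P.a⁻¹ = P.p (-l) * P.a * P.p v * P.Z ^ (-e1) := by
  have h' : P.a * P.p v * P.a = P.p l * P.a * P.p r * P.Z ^ (k * e1) := h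
  have e0 : P.Z ^ (k * e1) * P.Z ^ (k * -e1) = 1 := by
    rw [← zpow_add, mul_neg, add_neg_cancel, zpow_zero]
  rw [P.pneg, mul_inv_eq_iff_eq_mul]
  calc P.a * P.p r = (P.p l)⁻¹ * (P.p l * P.a * P.p r * P.Z ^ (k * e1)) * P.Z ^ (k * -e1) := by
        simp only [mul_assoc, e0, mul_one, inv_mul_cancel_left]
    _ = (P.p l)⁻¹ * (P.a * P.p v * P.a) * P.Z ^ (k * -e1) := by rw [h']
    _ = (P.p l)⁻¹ * P.a * P.p v * (P.a * P.Z ^ (k * -e1)) := by simp only [mul_assoc]
    _ = (P.p l)⁻¹ * P.a * P.p v * P.Z ^ (-e1) * P.a := by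
        rw [← z2]
        simp only [mul_assoc]

/-- the group calculation -/
theorem grp (a z1 z2 pNc pvW pu pA pmA p2A pw pNr pv3 pmNr ZA : G)
    (hL : pNc * a * pvW * z2 = (pu * a * pmA * z1) * (ZA * p2A * a⁻¹ * pw⁻¹))
    (hz : z1 * ZA * p2A = pA * pA * (z1 * ZA)) (hmA : pmA * pA = 1)
    (hu : pNc = pu * pNr) (hc : pu * pNr = pNr * pu) (hv : pvW * z2 * pw = pv3 * z2)
    (hm : pmNr * pNr = 1) :
    a * pv3 * z2 * a = pmNr * a * pA * (z1 * ZA) := by
  have h1 : pNc * a * pvW * z2 * pw = pu * a * pmA * (z1 * ZA * p2A) * a⁻¹ := by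
    rw [hL]
    group
  rw [hz] at h1
  have h2 : pu * pNr * a * (pvW * z2 * pw) = pu * a * (pmA * pA) * pA * (z1 * ZA) * a⁻¹ := by
    rw [← hu]
    calc pNc * a * (pvW * z2 * pw) = pNc * a * pvW * z2 * pw := by simp only [mul_assoc]
      _ = _ := h1
      _ = _ := by simp only [mul_assoc]
  rw [hv, hmA, mul_one] at h2
  have h3 : pNr * a * (pv3 * z2) * a = a * pA * (z1 * ZA) := by
    have h4 : pu * (pNr * a * (pv3 * z2) * a) = pu * (a * pA * (z1 * ZA)) := by
      calc pu * (pNr * a * (pv3 * z2) * a) = (pu * pNr * a * (pv3 * z2)) * a := by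
            simp only [mul_assoc]
        _ = (pu * a * pA * (z1 * ZA) * a⁻¹) * a := by rw [h2]
        _ = pu * (a * pA * (z1 * ZA)) := by
            simp only [mul_assoc, inv_mul_cancel, mul_one]
    exact mul_left_cancel h4
  calc a * pv3 * z2 * a = (pmNr * pNr) * (a * pv3 * z2 * a) := by rw [hm, one_mul]
    _ = pmNr * (pNr * a * (pv3 * z2) * a) := by simp only [mul_assoc]
    _ = pmNr * (a * pA * (z1 * ZA)) := by rw [h3]
    _ = pmNr * a * pA * (z1 * ZA) := by simp only [mul_assoc]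

theorem hIT3 : StIT3 := by
  intro hIRU hISC hIYW hITH Λ _ G _ k P r hS
  obtain ⟨z1, z2, -, -, -, -⟩ := hIRU Λ G k P
  obtain ⟨hY, hW⟩ := hIYW hITH hIRU hISC Λ G k P r hS
  have a1 : P.up (k * (1 - k)) * P.up (k * (k - 1)) = 1 := by
    rw [← P.up_add, show k * (1 - k) + k * (k - 1) = 0 by ring, P.up_zero]
  have a2 : P.up (k * (2 - k)) * P.up (k * (k - 1)) = P.up k := by
    rw [← P.up_add, show k * (2 - k) + k * (k - 1) = k by ring]
  have a3 : P.up ((k - 1) * (-1)) * P.up (k * (2 - k)) = 2 * P.up (k * (1 - k)) := by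
    rw [← P.up_add, show (k - 1) * (-1) + k * (2 - k) = 1 + k * (1 - k) by ring, P.up_add,
      P.up_one]
  have a4 : P.up ((k - 1) * (-(2 * k + 1))) * P.up (2 - k) = P.up (3 - 2 * k * k) := by
    rw [← P.up_add, show (k - 1) * (-(2 * k + 1)) + (2 - k) = 3 - 2 * k * k by ring]
  have hN : P.N = P.up k - 1 := rfl
  -- the three values of sigma
  have sW := sig P z2 _ _ _ (2 * k + 1) hW
  have Y1 := hISC hIRU Λ G k P _ _ _ _ hY (1 - k)
  rw [show 2 * k - k * (1 - k) = k * (k + 1) by ring] at Y1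
  have s1 := sig P z2 _ _ _ (k + 1) Y1
  have Y2 := hISC hIRU Λ G k P _ _ _ _ hY (2 - k)
  rw [show 2 * k - k * (2 - k) = k * k by ring] at Y2
  have s2 := sig P z2 _ _ _ k Y2
  rw [show P.up (k * (1 - k)) * -(P.N * r * P.up (k * (k - 1))) = -(P.N * r) by
      linear_combination (-(P.N * r)) * a1,
    show -(P.up (1 - k) * -P.N) = P.up (1 - k) * P.N by ring,
    show P.up (k * (1 - k)) * -(r + P.up (1 - k)) =
      -(P.up (k * (1 - k)) * (r + P.up (1 - k))) by ring] at s1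
  rw [show P.up (k * (2 - k)) * -(P.N * r * P.up (k * (k - 1))) = -(P.N * r * P.up k) by
      linear_combination (-(P.N * r)) * a2,
    show -(P.up (2 - k) * -P.N) = P.up (2 - k) * P.N by ring,
    show P.up (k * (2 - k)) * -(r + P.up (1 - k)) =
      -(P.up (k * (2 - k)) * (r + P.up (1 - k))) by ring] at s2
  have s2' : P.a * P.p (P.N * r * P.up k) * P.a⁻¹ =
      P.Z ^ k * P.p (P.up (k * (2 - k)) * (r + P.up (1 - k))) * P.a⁻¹ *
        (P.p (P.up (2 - k) * P.N))⁻¹ := by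
    have := congrArg (fun x => x⁻¹) s2
    simp only [mul_inv_rev, P.pneg, inv_inv, zpow_neg] at this
    rw [← mul_assoc, ← mul_assoc, ← mul_assoc] at this
    exact this
  have hsum : P.a * P.p (P.N * P.N * r) * P.a⁻¹ =
      (P.a * P.p (-(P.N * r)) * P.a⁻¹) * (P.a * P.p (P.N * r * P.up k) * P.a⁻¹) := by
    rw [show P.N * P.N * r = -(P.N * r) + P.N * r * P.up k by rw [hN]; ring, P.add]
    simp only [mul_assoc, inv_mul_cancel_left]
  rw [sW, s1, s2', neg_neg] at hsum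
  have key := grp P.a (P.Z ^ (-(k + 1))) (P.Z ^ (-(2 * k + 1)))
    (P.p (P.N * (r + P.up (1 - k))))
    (P.p ((-(r + P.up (1 - k)) + P.N * r * P.up (k * (k - 1))) * P.up (-(2 * k * (k - 1)))))
    (P.p (P.up (1 - k) * P.N)) (P.p (P.up (k * (1 - k)) * (r + P.up (1 - k))))
    (P.p (-(P.up (k * (1 - k)) * (r + P.up (1 - k)))))
    (P.p (P.up (k * (2 - k)) * (r + P.up (1 - k)))) (P.p (P.up (2 - k) * P.N))
    (P.p (P.N * r))
    (P.p ((-(r + P.up (1 - k)) + P.N * r * P.up (k * (k - 1))) * P.up (-(2 * k * (k - 1))) +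
      P.up (3 - 2 * k * k) * P.N)) (P.p (-(P.N * r))) (P.Z ^ k) hsum
    (by
      rw [← zpow_add, show -(k + 1) + k = -1 by ring, z1, ← P.add]
      congr 2
      linear_combination (r + P.up (1 - k)) * a3)
    (by rw [← P.add, neg_add_cancel, P.p0])
    (by rw [← P.add]; congr 1; ring)
    (by rw [← P.add, ← P.add, add_comm])
    (by
      rw [mul_assoc, z1, ← mul_assoc, ← P.add]
      congr 3
      linear_combination P.N * a4)
    (by rw [← P.add, neg_add_cancel, P.p0])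
  -- the end
  change P.a * P.p _ * P.a = _
  have hz : P.Z ^ (-(2 * k + 1)) * P.a = P.a * P.Z ^ (k * (-(2 * k + 1))) := z2 _
  have key2 : P.a * P.p ((-(r + P.up (1 - k)) + P.N * r * P.up (k * (k - 1))) *
      P.up (-(2 * k * (k - 1))) + P.up (3 - 2 * k * k) * P.N) * P.a *
        P.Z ^ (k * (-(2 * k + 1))) =
      P.p (-(P.N * r)) * P.a * P.p (P.up (k * (1 - k)) * (r + P.up (1 - k))) *
        P.Z ^ (-1 : ℤ) := by
    rw [← zpow_add, show -(k + 1) + k = -1 by ring] at key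
    rw [← key, mul_assoc (P.a * P.p _), ← hz]
    simp only [mul_assoc]
  rw [← eq_mul_inv_iff_mul_eq] at key2
  rw [key2, ← zpow_neg, mul_assoc _ (P.Z ^ (-1 : ℤ)), ← zpow_add]
  congr 2
  ring

end Pool.Agent.Helper8.RK
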